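import Pool.Agent.helper61.DP.SpecC

/-!
# RGP: gluing two mirror images of the step event with a crossing (part C of the project dp)
-/

namespace DP

open MeasureTheory

theorem RGP_rect_finite (a b d e : ℤ) : (rect a b d e).Finite := by
  refine Set.Finite.subset (((Finset.Icc a b) ×ˢ (Finset.Icc d e) : Finset V).finite_toSet) ?_
  intro v hv
  obtain ⟨h1, h2, h3, h4⟩ := hv
  simp only [Finset.coe_product, Finset.coe_Icc, Set.mem_prod, Set.mem_Icc]
  exact ⟨⟨h1, h2⟩, h3, h4⟩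

/-- FKG for one configuration. -/
theorem RGP_fkg (hfkg : Bfkg_stmt) (hzero : Bzero_stmt) {k : Bool} {F G : Set (V → Bool)}
    {A B : Set V} (hF : Loc F A) (hG : Loc G B) (mF : Mon k F) (mG : Mon k G) :
    Pr F * Pr G ≤ Pr (F ∩ G) := by
  have hF' : Loc F (A ∪ B) := hF.mono Set.subset_union_left
  have hG' : Loc G (A ∪ B) := hG.mono Set.subset_union_right
  have h := hfkg (fun _ => 0) k F G (A ∪ B) hF' hG' mF mG
  have hFG : Loc (F ∩ G) (A ∪ B) := hF.inter hG
  rw [hzero (fun _ => 0) F F (A ∪ B) hF' hF' (fun _ _ => rfl),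
    hzero (fun _ => 0) G G (A ∪ B) hG' hG' (fun _ _ => rfl),
    hzero (fun _ => 0) (F ∩ G) (F ∩ G) (A ∪ B) hFG hFG (fun _ _ => rfl)] at h
  simpa only [Set.inter_self] using h

theorem RGP_EV_congr {c c' : V → Bool} {a b h : ℤ}
    (hc : ∀ v ∈ rect 0 a 0 h ∪ rect 0 b 0 (2 * h), c v = c' v) : EV c a b h ↔ EV c' a b h := by
  unfold EV
  refine exists_congr fun u => exists_congr fun t => exists_congr fun y => ?_
  rw [Conn.congr (c := c) (c' := c') (k := true) (R := rect 0 a 0 h)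
    (fun v hv => hc v (Or.inl hv)) (u := u) (v := t),
    Conn.congr (c := c) (c' := c') (k := true) (R := rect 0 b 0 (2 * h))
    (fun v hv => hc v (Or.inr hv)) (u := u) (v := y)]

theorem RGP_EV_mono {c c' : V → Bool} {a b h : ℤ} (hc : ∀ v, c v = true → c' v = true)
    (hE : EV c a b h) : EV c' a b h := by
  obtain ⟨u, t, y, h1, h2, h3, h4, h5⟩ := hE
  exact ⟨u, t, y, h1, h2, h3, h4.colour_mono fun v _ => hc v, h5.colour_mono fun v _ => hc v⟩

theorem RGP_EV_loc (a b h : ℤ) : Loc (Ev fun c => EV c a b h) Set.univ :=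
  (Loc.ev ((RGP_rect_finite 0 a 0 h).union (RGP_rect_finite 0 b 0 (2 * h)))
    fun _ _ hc => RGP_EV_congr hc).mono (Set.subset_univ _)

/-- Reflection of the first coordinate. -/
def RGP_refl (a : ℤ) : V ≃ V where
  toFun v := (a - v.1, v.2)
  invFun v := (a - v.1, v.2)
  left_inv v := by simp
  right_inv v := by simp

theorem RGP_EV_loc' (a b h : ℤ) :
    Loc (Ev fun c => EV (fun v => c (a - v.1, v.2)) a b h) Set.univ := by
  refine (Loc.ev (A := (RGP_refl a) '' (rect 0 a 0 h ∪ rect 0 b 0 (2 * h)))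
    (((RGP_rect_finite 0 a 0 h).union (RGP_rect_finite 0 b 0 (2 * h))).image _)
    fun c c' hc => RGP_EV_congr fun v hv => ?_).mono (Set.subset_univ _)
  exact hc (RGP_refl a v) (Set.mem_image_of_mem _ hv)

theorem RGP (hRGD : RGD_stmt) (hfkg : Bfkg_stmt) (hzero : Bzero_stmt) (hRSY : RSY_stmt)
    (hRLM : RLM_stmt) (hRSX : RSX_stmt) : RGP_stmt := by
  intro a b h ha hb h0 hab hh
  -- the three events
  set E1 : Set (V → Bool) := Ev fun c => EV c a b h with hE1
  set E2 : Set (V → Bool) := Ev fun c => EV (fun v => c (a - v.1, v.2)) a b h with hE2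
  set H : Set (V → Bool) := Ev fun c => hcross c true 0 a 0 h with hH
  have l1 : Loc E1 Set.univ := RGP_EV_loc a b h
  have l2 : Loc E2 Set.univ := RGP_EV_loc' a b h
  have l3 : Loc H Set.univ := (hRLM true 0 a 0 h).1.mono (Set.subset_univ _)
  have m1 : Mon true E1 := Mon.ev fun c c' hc => RGP_EV_mono hc
  have m2 : Mon true E2 := Mon.ev fun c c' hc => RGP_EV_mono fun v => hc _
  have m3 : Mon true H := (hRLM true 0 a 0 h).2.2.1
  -- the mirror image has the same probability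
  have e2 : Pr E2 = Pr E1 := by
    refine hRSY.1 (RGP_refl a) (fun c => EV c a b h) Set.univ l1 fun v => ?_
    obtain ⟨i, hi⟩ := ha
    constructor
    · simp only [prm, RGP_refl, Equiv.coe_fn_mk]
      constructor <;> rintro ⟨h1, h2⟩ <;> refine ⟨by omega, h2⟩
    · simp only [dul, RGP_refl, Equiv.coe_fn_mk]
      constructor <;> rintro ⟨h1, h2⟩ <;> refine ⟨by omega, h2⟩
  have f1 : Pr E1 * Pr E2 ≤ Pr (E1 ∩ E2) := RGP_fkg hfkg hzero l1 l2 m1 m2
  have l12 : Loc (E1 ∩ E2) Set.univ := by simpa using l1.inter l2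
  have f2 : Pr (E1 ∩ E2) * Pr H ≤ Pr (E1 ∩ E2 ∩ H) := RGP_fkg hfkg hzero l12 l3 (m1.inter m2) m3
  have hsub : E1 ∩ E2 ∩ H ⊆ Ev fun c => hcross c true (a - b) b 0 (2 * h) := by
    rintro w ⟨⟨h1, h2⟩, h3⟩
    exact hRGD (col w) a b h ha h0 hab hh h1 h2 h3
  have f3 : Pr (E1 ∩ E2 ∩ H) ≤ ph true (a - b) b 0 (2 * h) := by
    have : IsProbabilityMeasure P1 := by unfold P1; infer_instance
    exact measureReal_mono hsub (measure_ne_top _ _)
  have f4 : ph true (a - b) b 0 (2 * h) = ph true 0 (2 * b - a) 0 (2 * h) := by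
    obtain ⟨i, hi⟩ := ha
    obtain ⟨j, hj⟩ := hb
    have := (hRSX.1 true (a - b) b 0 (2 * h) (j - i) 0).1
    rw [← this]
    congr 1 <;> omega
  have hH0 : 0 ≤ Pr H := measureReal_nonneg
  calc Pr E1 ^ 2 * ph true 0 a 0 h = Pr E1 * Pr E2 * Pr H := by rw [e2, sq]; rfl
    _ ≤ Pr (E1 ∩ E2) * Pr H := mul_le_mul_of_nonneg_right f1 hH0
    _ ≤ Pr (E1 ∩ E2 ∩ H) := f2
    _ ≤ ph true (a - b) b 0 (2 * h) := f3
    _ = ph true 0 (2 * b - a) 0 (2 * h) := f4

end DP
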